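import Pool.Agent.H118R4.EC.Crit

set_option autoImplicit false

/-!
# Approximation properties of the numbers in `ℚ + ℚ e`
-/

namespace Pool.Agent.H118R4.EC

open Filter Topology
open Pool.Agent.H43R2.Cplx (Exp2)
open Pool.Agent.H43R2.Cplx.EMeas (q r I I_eq I_pos I_le det q_pos q_growth q_mono lower measure)

theorem rel_dist {ξ : ℝ} {a b c : ℤ} (h : (a : ℝ) + b * Real.exp 1 + c * ξ = 0) (Q : ℕ) (m : ℤ) :
    ∃ m' : ℤ, |(c : ℝ)| * |(Q : ℝ) * ξ - m| =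
      |((b.natAbs * Q : ℕ) : ℝ) * Real.exp 1 - m'| := by
  have hcast : (b.natAbs : ℝ) = |(b : ℝ)| := by rw [Nat.cast_natAbs, Int.cast_abs]
  rcases le_total 0 (b : ℝ) with hb | hb
  · refine ⟨-(a * Q + c * m), ?_⟩
    rw [← abs_mul]
    push_cast
    rw [hcast, abs_of_nonneg hb]
    have h2 : (c : ℝ) * ((Q : ℝ) * ξ - m) =
        -((b : ℝ) * Q * Real.exp 1 - -((a : ℝ) * Q + c * m)) := by
      linear_combination (Q : ℝ) * h
    rw [h2, abs_neg]
  · refine ⟨a * Q + c * m, ?_⟩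
    rw [← abs_mul]
    push_cast
    rw [hcast, abs_of_nonpos hb]
    congr 1
    linear_combination (Q : ℝ) * h

theorem exp2_of_rel {ξ : ℝ} {a b c : ℤ} (hb : b ≠ 0) (hc : c ≠ 0)
    (h : (a : ℝ) + b * Real.exp 1 + c * ξ = 0) : Exp2 ξ := by
  intro ε hε
  obtain ⟨c0, hc0, hq⟩ := measure ε hε
  have hb1 : 1 ≤ b.natAbs := Int.natAbs_pos.mpr hb
  have hbp : (0 : ℝ) < b.natAbs := by exact_mod_cast hb1
  have hcp : 0 < |(c : ℝ)| := abs_pos.mpr (by exact_mod_cast hc)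
  refine ⟨c0 / ((b.natAbs : ℝ) ^ (1 + ε) * |(c : ℝ)|), by positivity, fun Q hQ m => ?_⟩
  obtain ⟨m', hm'⟩ := rel_dist h Q m
  have h1 := hq (b.natAbs * Q) (Nat.one_le_iff_ne_zero.mpr (by positivity)) m'
  rw [← hm'] at h1
  push_cast at h1
  rw [Real.mul_rpow (Nat.cast_nonneg _) (Nat.cast_nonneg _)] at h1
  rw [div_le_iff₀ (by positivity)]
  refine h1.trans (le_of_eq ?_)
  ring

theorem log_of_rel {ξ : ℝ} {a b c : ℤ} (hb : b ≠ 0) (hc : c ≠ 0)
    (h : (a : ℝ) + b * Real.exp 1 + c * ξ = 0) : ∃ C : ℝ, 0 < C ∧ ∀ Q : ℕ, 2 ≤ Q → ∀ m : ℤ,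
      C ≤ (Q : ℝ) * Real.log Q * |(Q : ℝ) * ξ - m| := by
  have hb1 : 1 ≤ b.natAbs := Int.natAbs_pos.mpr hb
  have hbp : (0 : ℝ) < b.natAbs := by exact_mod_cast hb1
  have hb1r : (1 : ℝ) ≤ b.natAbs := by exact_mod_cast hb1
  have hcp : 0 < |(c : ℝ)| := abs_pos.mpr (by exact_mod_cast hc)
  have hl2 : 0 < Real.log 2 := Real.log_pos (by norm_num)
  have hK0 : 0 ≤ Real.log (8 * b.natAbs) := Real.log_nonneg (by linarith)
  set K : ℝ := Real.log (8 * b.natAbs) / Real.log 2 with hK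
  have hKn : 0 ≤ K := div_nonneg hK0 hl2.le
  set D : ℝ := (4 * (K + 1) + 3) / Real.log 2 with hD
  have hDp : 0 < D := by positivity
  refine ⟨1 / (8 * D * b.natAbs * |(c : ℝ)|), by positivity, fun Q hQ m => ?_⟩
  have hQr : (2 : ℝ) ≤ Q := by exact_mod_cast hQ
  have hQp : (0 : ℝ) < Q := by linarith
  have hlQ : Real.log 2 ≤ Real.log Q := Real.log_le_log (by norm_num) hQr
  have hlQp : 0 < Real.log Q := by linarith
  obtain ⟨m', hm'⟩ := rel_dist h Q m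
  obtain ⟨n, hn, hlow⟩ := lower (b.natAbs * Q) (Nat.one_le_iff_ne_zero.mpr (by positivity)) m'
  rw [← hm'] at hlow
  have hn' : ((2 : ℝ) ^ n) < 8 * (b.natAbs * Q) := by exact_mod_cast hn
  have h1 : (n : ℝ) * Real.log 2 ≤ Real.log (8 * b.natAbs) + Real.log Q := by
    rw [← Real.log_mul (by positivity) hQp.ne', ← Real.log_pow]
    apply Real.log_le_log (by positivity)
    calc (2 : ℝ) ^ n ≤ 8 * (b.natAbs * Q) := hn'.le
      _ = 8 * b.natAbs * Q := by ring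
  have h2 : Real.log (8 * b.natAbs) ≤ K * Real.log Q := by
    rw [hK, div_mul_eq_mul_div, le_div_iff₀ hl2]
    exact mul_le_mul_of_nonneg_left hlQ hK0
  have h3 : (4 * (n : ℝ) + 3) ≤ D * Real.log Q := by
    rw [hD, div_mul_eq_mul_div, le_div_iff₀ hl2]
    nlinarith
  have h4 : 0 < (4 * (n : ℝ) + 3) := by positivity
  push_cast at hlow
  have h5 : 1 / (8 * (D * Real.log Q) * (b.natAbs * Q)) ≤ |(c : ℝ)| * |(Q : ℝ) * ξ - m| := by
    refine le_trans ?_ hlow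
    apply one_div_le_one_div_of_le (by positivity)
    have : 8 * (4 * (n : ℝ) + 3) ≤ 8 * (D * Real.log Q) := by linarith
    exact mul_le_mul_of_nonneg_right this (by positivity)
  rw [div_le_iff₀ (by positivity)] at h5
  rw [div_le_iff₀ (by positivity)]
  refine h5.trans (le_of_eq ?_)
  ring

theorem q_step (n : ℕ) : ((4 : ℝ) * n + 6) * q (n + 1) ≤ q (n + 2) := by
  have : (q (n + 2) : ℝ) = (4 * n + 6) * q (n + 1) + q n := by
    simp only [q]
    push_cast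
    ring
  rw [this]
  have : (0 : ℝ) ≤ q n := Nat.cast_nonneg _
  linarith

theorem good_of_rel {ξ : ℝ} {a b c : ℤ} (hc : c ≠ 0)
    (h : (a : ℝ) + b * Real.exp 1 + c * ξ = 0) {ε : ℝ} (hε : 0 < ε) :
    ∃ᶠ Q : ℕ in atTop, (Q : ℝ) * |(Q : ℝ) * ξ - round ((Q : ℝ) * ξ)| ≤ ε := by
  rw [frequently_atTop]
  intro N
  have hc1 : 1 ≤ c.natAbs := Int.natAbs_pos.mpr hc
  obtain ⟨M, hM⟩ := exists_nat_gt ((c.natAbs : ℝ) * (2 * |(b : ℝ)|) / ε)
  set n := N + M with hn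
  refine ⟨c.natAbs * q (n + 1), ?_, ?_⟩
  · have h1 : N ≤ q (n + 1) := by
      have h2 : n < 2 ^ n := Nat.lt_two_pow_self
      have h3 := q_growth n
      omega
    exact h1.trans (Nat.le_mul_of_pos_left _ hc1)
  · have h1 := small_of_rel h (n + 1)
    unfold dist at h1
    push_cast
    have hq0 : (0 : ℝ) < q (n + 1) := by exact_mod_cast (q_pos n).2
    have hq1 : (0 : ℝ) < q (n + 2) := by exact_mod_cast (q_pos (n + 1)).2
    have h2 := mul_le_mul_of_nonneg_left h1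
      (by positivity : (0 : ℝ) ≤ (c.natAbs : ℝ) * q (n + 1))
    refine h2.trans ?_
    rw [show n + 1 + 1 = n + 2 by ring, mul_div_assoc', div_le_iff₀ hq1]
    have h3 := q_step n
    have h4 : (c.natAbs : ℝ) * (2 * |(b : ℝ)|) ≤ ε * (4 * n + 6) := by
      rw [div_lt_iff₀ hε] at hM
      have : (M : ℝ) ≤ n := by
        rw [hn]; push_cast; have : (0 : ℝ) ≤ N := Nat.cast_nonneg _; linarith
      nlinarith
    calc (c.natAbs : ℝ) * q (n + 1) * (2 * |(b : ℝ)|) =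
        ((c.natAbs : ℝ) * (2 * |(b : ℝ)|)) * q (n + 1) := by ring
      _ ≤ (ε * (4 * n + 6)) * q (n + 1) := mul_le_mul_of_nonneg_right h4 hq0.le
      _ = ε * ((4 * n + 6) * q (n + 1)) := by ring
      _ ≤ ε * q (n + 2) := mul_le_mul_of_nonneg_left h3 hε.le

end Pool.Agent.H118R4.EC
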