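import Pool.Agent.H43R2.Cplx.EFinal2

set_option autoImplicit false

/-!
# Numbers in `ℚ + ℚ e` and the denominators of the convergents of `e`
-/

namespace Pool.Agent.H118R4.EC

open Filter Topology
open Pool.Agent.H43R2.Cplx.EMeas (q r I I_eq I_pos I_le det q_pos q_growth q_mono)

/-- distance to the nearest integer -/
noncomputable def dist (x : ℝ) : ℝ := |x - round x|

theorem dist_le (x : ℝ) (k : ℤ) : dist x ≤ |x - k| := round_le x k

theorem dist_neg (x : ℝ) : dist (-x) = dist x := by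
  apply le_antisymm
  · refine (dist_le (-x) (-(round x))).trans (le_of_eq ?_)
    unfold dist
    rw [← abs_neg]
    congr 1
    push_cast
    ring
  · refine (dist_le x (-(round (-x)))).trans (le_of_eq ?_)
    unfold dist
    rw [← abs_neg]
    congr 1
    push_cast
    ring

theorem qe (n : ℕ) : (q n : ℝ) * Real.exp 1 = r n + (-1) ^ n * I n := by
  have h := (I_eq n).1
  have h2 : ((-1 : ℝ) ^ n) * (-1) ^ n = 1 := by rw [← mul_pow]; norm_num
  rw [h, ← mul_assoc, h2]
  ring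

/-- a relation makes the distances very small -/
theorem small_of_rel {ξ : ℝ} {a b c : ℤ} (h : (a : ℝ) + b * Real.exp 1 + c * ξ = 0) (n : ℕ) :
    dist ((c.natAbs : ℝ) * q n * ξ) ≤ 2 * |(b : ℝ)| / q (n + 1) := by
  have e1 : (c : ℝ) * q n * ξ = -(a * q n + b * r n : ℤ) - b * ((-1) ^ n * I n) := by
    have : (c : ℝ) * q n * ξ = -(a * q n + b * (q n * Real.exp 1)) := by linear_combination (q n : ℝ) * h
    rw [this, qe]
    push_cast
    ring
  have e2 : dist ((c : ℝ) * q n * ξ) ≤ 2 * |(b : ℝ)| / q (n + 1) := by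
    refine (dist_le _ (-(a * q n + b * r n))).trans ?_
    rw [e1]
    have : (-(((a * q n + b * r n : ℤ)) : ℝ) - b * ((-1) ^ n * I n) - ((-(a * q n + b * r n) : ℤ) : ℝ)) =
        -(b * ((-1) ^ n * I n)) := by
      push_cast
      ring
    rw [this, abs_neg, abs_mul, abs_mul, abs_pow, abs_neg, abs_one, one_pow, one_mul,
      abs_of_pos (I_pos n)]
    have h3 := mul_le_mul_of_nonneg_left (I_le n) (abs_nonneg (b : ℝ))
    refine h3.trans (le_of_eq ?_)
    ring
  have hcast : (c.natAbs : ℝ) = |(c : ℝ)| := by rw [Nat.cast_natAbs, Int.cast_abs]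
  rw [hcast]
  rcases le_total 0 (c : ℝ) with hc | hc
  · rwa [abs_of_nonneg hc]
  · rw [abs_of_nonpos hc, show -(c : ℝ) * q n * ξ = -((c : ℝ) * q n * ξ) by ring, dist_neg]
    exact e2

theorem q_ge (n : ℕ) : (2 : ℝ) ^ n ≤ q (n + 1) := by exact_mod_cast q_growth n

theorem tend : Tendsto (fun n : ℕ => (n : ℝ) / q (n + 1)) atTop (𝓝 0) := by
  have h : Tendsto (fun n : ℕ => (n : ℝ) * (1 / 2) ^ n) atTop (𝓝 0) :=
    tendsto_self_mul_const_pow_of_lt_one (by norm_num) (by norm_num)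
  refine squeeze_zero (fun n => by positivity) (fun n => ?_) h
  have := q_ge n
  have hp : (0 : ℝ) < 2 ^ n := by positivity
  rw [one_div, inv_pow, div_eq_mul_inv]
  exact mul_le_mul_of_nonneg_left (inv_anti₀ hp this) (Nat.cast_nonneg n)

theorem rec_of_small {ξ : ℝ} {m : ℕ} {κ : ℝ} (hκ : κ < 1 / 4)
    (h : ∀ᶠ n : ℕ in atTop, (n : ℝ) * dist ((m : ℝ) * q n * ξ) ≤ κ) :
    ∃ N : ℕ, ∀ n, N ≤ n → round ((m : ℝ) * q (n + 2) * ξ) =
      (4 * n + 6) * round ((m : ℝ) * q (n + 1) * ξ) + round ((m : ℝ) * q n * ξ) := by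
  obtain ⟨N0, hN0⟩ := eventually_atTop.mp h
  have hκ0 : 0 ≤ κ := le_trans (mul_nonneg (Nat.cast_nonneg _) (abs_nonneg _)) (hN0 N0 le_rfl)
  obtain ⟨N1, hN1⟩ := exists_nat_gt (4 * κ / (1 - 4 * κ))
  have h14 : 0 < 1 - 4 * κ := by linarith
  refine ⟨max N0 (max N1 1), fun n hn => ?_⟩
  have hn0 : N0 ≤ n := le_trans (le_max_left _ _) hn
  have hn1 : N1 ≤ n := le_trans (le_trans (le_max_left _ _) (le_max_right _ _)) hn
  have hn2 : 1 ≤ n := le_trans (le_trans (le_max_right _ _) (le_max_right _ _)) hn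
  have hnr : (1 : ℝ) ≤ n := by exact_mod_cast hn2
  have hnp : (0 : ℝ) < n := by linarith
  have b0 := hN0 n hn0
  have b1 := hN0 (n + 1) (by omega)
  have b2 := hN0 (n + 2) (by omega)
  push_cast at b1 b2
  set d0 := (m : ℝ) * q n * ξ - round ((m : ℝ) * q n * ξ) with hd0
  set d1 := (m : ℝ) * q (n + 1) * ξ - round ((m : ℝ) * q (n + 1) * ξ) with hd1
  set d2 := (m : ℝ) * q (n + 2) * ξ - round ((m : ℝ) * q (n + 2) * ξ) with hd2
  have c0 : |d0| ≤ κ / n := by rw [le_div_iff₀ hnp, mul_comm]; exact b0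
  have c1 : |d1| ≤ κ / (n + 1) := by rw [le_div_iff₀ (by linarith), mul_comm]; exact b1
  have c2 : |d2| ≤ κ / (n + 2) := by rw [le_div_iff₀ (by linarith), mul_comm]; exact b2
  have hq2 : (q (n + 2) : ℝ) = (4 * n + 6) * q (n + 1) + q n := by
    simp only [q]
    push_cast
    ring
  have hkey : ((round ((m : ℝ) * q (n + 2) * ξ) - ((4 * n + 6) * round ((m : ℝ) * q (n + 1) * ξ) +
      round ((m : ℝ) * q n * ξ)) : ℤ) : ℝ) = -(d2 - (4 * n + 6) * d1 - d0) := by
    rw [hd0, hd1, hd2, hq2]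
    push_cast
    ring
  have hlt : |d2 - (4 * n + 6) * d1 - d0| < 1 := by
    have t1 : |d2 - (4 * n + 6) * d1 - d0| ≤ |d2| + (4 * n + 6) * |d1| + |d0| := by
      have h1 := abs_sub (d2 - (4 * n + 6) * d1) d0
      have h2 := abs_sub d2 ((4 * n + 6) * d1)
      rw [abs_mul, abs_of_pos (by positivity : (0:ℝ) < 4 * n + 6)] at h2
      linarith
    have t2 : |d2| + (4 * n + 6) * |d1| + |d0| ≤ κ / n + (4 * n + 6) * (κ / (n + 1)) + κ / n := by
      have : κ / (n + 2) ≤ κ / n := by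
        apply div_le_div_of_nonneg_left hκ0 hnp; linarith
      have := mul_le_mul_of_nonneg_left c1 (by positivity : (0:ℝ) ≤ 4 * n + 6)
      linarith
    have t3 : (4 * n + 6 : ℝ) * (κ / (n + 1)) ≤ 4 * κ + 2 * (κ / n) := by
      have e : (4 * n + 6 : ℝ) * (κ / (n + 1)) = 4 * κ + 2 * (κ / (n + 1)) := by
        field_simp
        ring
      rw [e]
      have : κ / (n + 1) ≤ κ / n := by
        apply div_le_div_of_nonneg_left hκ0 hnp; linarith
      linarith
    have t4 : 4 * (κ / n) < 1 - 4 * κ := by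
      have : 4 * κ / (1 - 4 * κ) < n := lt_of_lt_of_le hN1 (by exact_mod_cast hn1)
      rw [div_lt_iff₀ h14] at this
      rw [← mul_div_assoc, div_lt_iff₀ hnp]
      linarith
    linarith
  have hz : |(round ((m : ℝ) * q (n + 2) * ξ) - ((4 * n + 6) * round ((m : ℝ) * q (n + 1) * ξ) +
      round ((m : ℝ) * q n * ξ)) : ℤ)| < 1 := by
    have : ((|(round ((m : ℝ) * q (n + 2) * ξ) - ((4 * n + 6) * round ((m : ℝ) * q (n + 1) * ξ) +
      round ((m : ℝ) * q n * ξ)) : ℤ)| : ℤ) : ℝ) < 1 := by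
      rw [Int.cast_abs, hkey, abs_neg]
      exact hlt
    exact_mod_cast this
  have := Int.abs_lt_one_iff.mp hz
  omega

theorem rel_of_rec {ξ : ℝ} {m N : ℕ} (hm : 1 ≤ m)
    (h : ∀ n, N ≤ n → round ((m : ℝ) * q (n + 2) * ξ) =
      (4 * n + 6) * round ((m : ℝ) * q (n + 1) * ξ) + round ((m : ℝ) * q n * ξ)) :
    ∃ a b c : ℤ, c ≠ 0 ∧ (a : ℝ) + b * Real.exp 1 + c * ξ = 0 := by
  set P : ℕ → ℤ := fun n => round ((m : ℝ) * q n * ξ) with hP
  set A : ℤ := P N * r (N + 1) - P (N + 1) * r N with hA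
  set B : ℤ := q N * P (N + 1) - q (N + 1) * P N with hB
  set d : ℤ := 2 * (-1) ^ N with hd
  have hdet : (q N : ℤ) * r (N + 1) - q (N + 1) * r N = d := by
    have := det N
    rw [pow_succ] at this
    rw [hd]
    linarith
  have hcomb : ∀ k, d * P (N + k) = A * q (N + k) + B * r (N + k) ∧
      d * P (N + k + 1) = A * q (N + k + 1) + B * r (N + k + 1) := by
    intro k
    induction k with
    | zero =>
      refine ⟨?_, ?_⟩
      · rw [← hdet, hA, hB]; simp only [add_zero]; ring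
      · rw [← hdet, hA, hB]; simp only [add_zero]; ring
    | succ k ih =>
      refine ⟨by rw [← add_assoc]; exact ih.2, ?_⟩
      have e := h (N + k) (by omega)
      have e' : P (N + k + 2) = (4 * (N + k : ℕ) + 6) * P (N + k + 1) + P (N + k) := by
        rw [hP]
        push_cast
        push_cast at e
        exact e
      rw [show N + (k + 1) + 1 = N + k + 2 by ring, e']
      have hq2 : (q (N + k + 2) : ℤ) = (4 * (N + k : ℕ) + 6) * q (N + k + 1) + q (N + k) := by
        simp only [q]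
        push_cast
        ring
      have hr2 : (r (N + k + 2) : ℤ) = (4 * (N + k : ℕ) + 6) * r (N + k + 1) + r (N + k) := by
        simp only [r]
        push_cast
        ring
      rw [hq2, hr2]
      linear_combination (4 * (N + k : ℕ) + 6) * ih.2 + ih.1
  have hdr : |(d : ℝ)| = 2 := by
    rw [hd]
    push_cast
    rw [abs_mul, abs_pow, abs_neg, abs_one, one_pow]
    norm_num
  have hbound : ∀ k, |(A : ℝ) + B * Real.exp 1 - d * m * ξ| * q (N + k) ≤ 1 + 2 * |(B : ℝ)| := by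
    intro k
    have h1 := (hcomb k).1
    have h1r : (d : ℝ) * P (N + k) = A * q (N + k) + B * r (N + k) := by exact_mod_cast h1
    have h2 := qe (N + k)
    have hq0 : (0 : ℝ) < q (N + k) := by exact_mod_cast (q_pos (N + k)).1
    have h3 : ((A : ℝ) + B * Real.exp 1 - d * m * ξ) * q (N + k) =
        B * ((-1) ^ (N + k) * I (N + k)) - d * ((m : ℝ) * q (N + k) * ξ - P (N + k)) := by
      linear_combination (B : ℝ) * h2 - h1r
    rw [← abs_of_pos hq0, ← abs_mul, h3]
    refine (abs_sub _ _).trans ?_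
    rw [abs_mul, abs_mul, abs_pow, abs_neg, abs_one, one_pow, one_mul, abs_of_pos (I_pos _),
      abs_mul, hdr]
    have h4 : |(m : ℝ) * q (N + k) * ξ - P (N + k)| ≤ 1 / 2 := abs_sub_round _
    have h5 : I (N + k) ≤ 2 := by
      refine (I_le _).trans ?_
      have : (1 : ℝ) ≤ q (N + k + 1) := by exact_mod_cast (q_pos (N + k)).2
      rw [div_le_iff₀ (by linarith)]
      linarith
    have h6 := mul_le_mul_of_nonneg_left h5 (abs_nonneg (B : ℝ))
    linarith
  have hzero : (A : ℝ) + B * Real.exp 1 - d * m * ξ = 0 := by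
    by_contra hne
    have hpos : 0 < |(A : ℝ) + B * Real.exp 1 - d * m * ξ| := abs_pos.mpr hne
    obtain ⟨K, hK⟩ := pow_unbounded_of_one_lt ((1 + 2 * |(B : ℝ)|) /
      |(A : ℝ) + B * Real.exp 1 - d * m * ξ|) (by norm_num : (1 : ℝ) < 2)
    have h1 := hbound (K + 1)
    have h2 : (2 : ℝ) ^ K ≤ q (N + (K + 1)) := by
      refine (q_ge K).trans ?_
      exact_mod_cast q_mono (by omega)
    rw [div_lt_iff₀ hpos] at hK
    have h3 := mul_le_mul_of_nonneg_left h2 hpos.le
    linarith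
  refine ⟨A, B, -(d * m), ?_, ?_⟩
  · have : d ≠ 0 := by
      intro h0
      rw [h0] at hdr
      norm_num at hdr
    have hm0 : (m : ℤ) ≠ 0 := by exact_mod_cast (by omega : m ≠ 0)
    exact neg_ne_zero.mpr (mul_ne_zero this hm0)
  · push_cast
    linarith

/-- **Criterion.** -/
theorem criterion (ξ : ℝ) : (∃ a b c : ℤ, c ≠ 0 ∧ (a : ℝ) + b * Real.exp 1 + c * ξ = 0) ↔
    ∃ m : ℕ, 1 ≤ m ∧ ∃ κ : ℝ, κ < 1 / 4 ∧
      ∀ᶠ n : ℕ in atTop, (n : ℝ) * dist ((m : ℝ) * q n * ξ) ≤ κ := by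
  constructor
  · rintro ⟨a, b, c, hc, h⟩
    refine ⟨c.natAbs, Int.natAbs_pos.mpr hc, 1 / 5, by norm_num, ?_⟩
    have ht : Tendsto (fun n : ℕ => (2 * |(b : ℝ)|) * ((n : ℝ) / q (n + 1))) atTop (𝓝 0) := by
      have := tend.const_mul (2 * |(b : ℝ)|)
      rwa [mul_zero] at this
    filter_upwards [ht.eventually (gt_mem_nhds (by norm_num : (0 : ℝ) < 1 / 5))] with n hn
    refine le_trans ?_ hn.le
    have := mul_le_mul_of_nonneg_left (small_of_rel h n) (Nat.cast_nonneg (α := ℝ) n)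
    refine this.trans (le_of_eq ?_)
    ring
  · rintro ⟨m, hm, κ, hκ, h⟩
    obtain ⟨N, hN⟩ := rec_of_small hκ h
    exact rel_of_rec hm hN

end Pool.Agent.H118R4.EC
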