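import Pool.Agent.H118R4.EC.Top

set_option autoImplicit false

/-!
# A criterion with factorials
-/

namespace Pool.Agent.H118R4.EC

open Filter Topology
open scoped Nat

/-- signed distance to the nearest integer -/
noncomputable def rem (x : ℝ) : ℝ := x - round x

/-- integers close to `n! e` -/
def A : ℕ → ℕ
  | 0 => 1
  | n + 1 => (n + 1) * A n + 1

/-- the remainders -/
noncomputable def t (n : ℕ) : ℝ := n ! * Real.exp 1 - A n

theorem t_succ (n : ℕ) : t (n + 1) = (n + 1) * t n - 1 := by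
  unfold t
  rw [Nat.factorial_succ, A]
  push_cast
  ring

theorem A_eq (n : ℕ) : (A n : ℝ) = n ! * ∑ k ∈ Finset.range (n + 1), (1 : ℝ) ^ k / k ! := by
  induction n with
  | zero => simp [A]
  | succ n ih =>
    rw [Finset.sum_range_succ, mul_add, A, Nat.factorial_succ]
    push_cast
    rw [ih, one_pow]
    have h1 : ((n : ℝ) + 1) ≠ 0 := by positivity
    have h2 : (n ! : ℝ) ≠ 0 := by positivity
    rw [mul_one_div_cancel (mul_ne_zero h1 h2)]
    ring

theorem t_nonneg (n : ℕ) : 0 ≤ t n := by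
  unfold t
  rw [A_eq, ← mul_sub]
  apply mul_nonneg (by positivity)
  have := Real.sum_le_exp_of_nonneg (x := 1) zero_le_one (n + 1)
  linarith

theorem t_le (n : ℕ) : t n ≤ 2 / (n + 1) := by
  unfold t
  rw [A_eq, ← mul_sub]
  have h := Real.exp_bound' (x := 1) zero_le_one le_rfl (n := n + 1) (Nat.succ_pos n)
  have h1 : Real.exp 1 - ∑ k ∈ Finset.range (n + 1), (1 : ℝ) ^ k / k ! ≤
      1 ^ (n + 1) * (((n + 1 : ℕ) : ℝ) + 1) / ((n + 1)! * ((n + 1 : ℕ) : ℝ)) := by
    linarith
  have h2 := mul_le_mul_of_nonneg_left h1 (Nat.cast_nonneg (α := ℝ) (n !))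
  refine h2.trans ?_
  rw [Nat.factorial_succ]
  push_cast
  have h3 : (n ! : ℝ) ≠ 0 := by positivity
  have h4 : ((n : ℝ) + 1) ≠ 0 := by positivity
  have h5 : (n ! : ℝ) * (1 ^ (n + 1) * ((n : ℝ) + 1 + 1) / (((n : ℝ) + 1) * n ! * (n + 1))) =
      (n + 2) / ((n + 1) * (n + 1)) := by
    rw [one_pow]
    field_simp
    ring
  rw [h5, div_le_div_iff₀ (by positivity) (by positivity)]
  have : (0 : ℝ) ≤ n := Nat.cast_nonneg n
  nlinarith

theorem t_tend : Tendsto t atTop (𝓝 0) := by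
  have h : Tendsto (fun n : ℕ => (2 : ℝ) * (1 / ((n : ℝ) + 1))) atTop (𝓝 0) := by
    have := (tendsto_one_div_add_atTop_nhds_zero_nat (𝕜 := ℝ)).const_mul 2
    rwa [mul_zero] at this
  refine squeeze_zero t_nonneg (fun n => (t_le n).trans (le_of_eq ?_)) h
  ring

theorem nt_tend : Tendsto (fun n : ℕ => (n : ℝ) * t n) atTop (𝓝 1) := by
  have h : Tendsto (fun n : ℕ => 1 + t (n + 1) - t n) atTop (𝓝 (1 + 0 - 0)) :=
    ((tendsto_const_nhds).add (t_tend.comp (tendsto_add_atTop_nat 1))).sub t_tend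
  rw [add_zero, sub_zero] at h
  refine h.congr fun n => ?_
  rw [t_succ]
  ring

theorem rem_eq {x : ℝ} {z : ℤ} (h : |x - z| < 1 / 2) : rem x = x - z := by
  have h1 := round_le x z
  have h2 : |((round x : ℤ) : ℝ) - z| < 1 := by
    have : ((round x : ℤ) : ℝ) - z = (x - z) - (x - round x) := by ring
    rw [this]
    have := abs_sub (x - z) (x - round x)
    linarith
  have h3 : |round x - z| < 1 := by
    have : ((|round x - z| : ℤ) : ℝ) < 1 := by
      push_cast
      exact h2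
    exact_mod_cast this
  have h4 : round x = z := by
    have := Int.abs_lt_one_iff.mp h3
    omega
  unfold rem
  rw [h4]

theorem tendsto_of_rel {ξ : ℝ} {a b c : ℤ} (h : (a : ℝ) + b * Real.exp 1 + c * ξ = 0) :
    ∃ L : ℝ, Tendsto (fun n : ℕ => (n : ℝ) * rem (c.natAbs * n ! * ξ)) atTop (𝓝 L) := by
  have hcast : (c.natAbs : ℝ) = |(c : ℝ)| := by rw [Nat.cast_natAbs, Int.cast_abs]
  obtain ⟨s, hs⟩ : ∃ s : ℤ, (c.natAbs : ℝ) = s * c := by
    rcases le_total 0 (c : ℝ) with hc | hc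
    · exact ⟨1, by rw [hcast, abs_of_nonneg hc]; push_cast; ring⟩
    · exact ⟨-1, by rw [hcast, abs_of_nonpos hc]; push_cast; ring⟩
  have e1 : ∀ n : ℕ, (c.natAbs : ℝ) * n ! * ξ - ((-s * (a * n ! + b * A n) : ℤ) : ℝ) =
      -(s * b) * t n := by
    intro n
    rw [hs]
    unfold t
    push_cast
    linear_combination (s * (n ! : ℝ)) * h
  have e2 : Tendsto (fun n : ℕ => -((s : ℝ) * b) * t n) atTop (𝓝 0) := by
    have := t_tend.const_mul (-((s : ℝ) * b))
    rwa [mul_zero] at this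
  refine ⟨-((s : ℝ) * b), ?_⟩
  have e3 : Tendsto (fun n : ℕ => -((s : ℝ) * b) * (n * t n)) atTop (𝓝 (-((s : ℝ) * b))) := by
    have := nt_tend.const_mul (-((s : ℝ) * b))
    rwa [mul_one] at this
  refine e3.congr' ?_
  have e4 := e2.abs
  rw [abs_zero] at e4
  filter_upwards [e4.eventually (gt_mem_nhds (by norm_num : (0 : ℝ) < 1 / 2))] with n hn
  rw [← e1 n] at hn
  rw [rem_eq hn, e1 n]
  ring

theorem rel_of_tendsto {ξ : ℝ} {m : ℕ} (hm : 1 ≤ m) {L : ℝ}
    (h : Tendsto (fun n : ℕ => (n : ℝ) * rem (m * n ! * ξ)) atTop (𝓝 L)) :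
    ∃ a b c : ℤ, c ≠ 0 ∧ (a : ℝ) + b * Real.exp 1 + c * ξ = 0 := by
  set d : ℕ → ℝ := fun n => rem (m * n ! * ξ) with hd
  set P : ℕ → ℤ := fun n => round ((m : ℝ) * n ! * ξ) with hP
  have hdP : ∀ n, (m : ℝ) * n ! * ξ = P n + d n := by
    intro n
    rw [hd, hP]
    unfold rem
    ring
  have hd0 : Tendsto d atTop (𝓝 0) := by
    have h1 : Tendsto (fun n : ℕ => ((n : ℝ) * d n) * (1 / (n : ℝ))) atTop (𝓝 (L * 0)) :=
      h.mul tendsto_one_div_atTop_nhds_zero_nat
    rw [mul_zero] at h1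
    refine h1.congr' ?_
    filter_upwards [eventually_ge_atTop 1] with n hn
    have : (n : ℝ) ≠ 0 := by
      have : n ≠ 0 := by omega
      exact_mod_cast this
    field_simp
  set g : ℕ → ℤ := fun n => P (n + 1) - (n + 1) * P n with hg
  have hgr : ∀ n, (g n : ℝ) = n * d n + d n - d (n + 1) := by
    intro n
    have h1 := hdP n
    have h2 := hdP (n + 1)
    rw [Nat.factorial_succ] at h2
    push_cast at h2
    rw [hg]
    push_cast
    linear_combination (n + 1 : ℝ) * h1 - h2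
  have hgt : Tendsto (fun n => (g n : ℝ)) atTop (𝓝 L) := by
    have h1 : Tendsto (fun n : ℕ => (n : ℝ) * d n + d n - d (n + 1)) atTop (𝓝 (L + 0 - 0)) :=
      (h.add hd0).sub (hd0.comp (tendsto_add_atTop_nat 1))
    rw [add_zero, sub_zero] at h1
    exact h1.congr fun n => (hgr n).symm
  obtain ⟨N, hN⟩ : ∃ N, ∀ n, N ≤ n → |(g n : ℝ) - L| < 1 / 2 := by
    have := (Metric.tendsto_atTop.mp hgt) (1 / 2) (by norm_num)
    obtain ⟨N, hN⟩ := this
    exact ⟨N, fun n hn => by have := hN n hn; rwa [Real.dist_eq] at this⟩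
  set k : ℤ := g N with hk
  have hgk : ∀ n, N ≤ n → g n = k := by
    intro n hn
    have h1 := hN n hn
    have h2 := hN N le_rfl
    have h3 : |(g n : ℝ) - k| < 1 := by
      have : (g n : ℝ) - k = (g n - L) - (g N - L) := by rw [hk]; ring
      rw [this]
      have := abs_sub ((g n : ℝ) - L) (g N - L)
      linarith
    have h4 : |g n - k| < 1 := by
      have : ((|g n - k| : ℤ) : ℝ) < 1 := by
        push_cast
        exact h3
      exact_mod_cast this
    have := Int.abs_lt_one_iff.mp h4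
    omega
  set D : ℕ → ℤ := fun n => P n - k * A n with hD
  have hDs : ∀ j, (N ! : ℤ) * D (N + j) = (N + j)! * D N := by
    intro j
    induction j with
    | zero => simp
    | succ j ih =>
      have h1 := hgk (N + j) (by omega)
      have h2 : P (N + j + 1) = ((N + j : ℕ) + 1) * P (N + j) + k := by
        have : P (N + j + 1) - (((N + j : ℕ) : ℤ) + 1) * P (N + j) = k := h1
        linarith
      have h3 : D (N + (j + 1)) = ((N + j : ℕ) + 1) * D (N + j) := by
        rw [hD]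
        simp only
        rw [← add_assoc, h2, A]
        push_cast
        ring
      rw [h3, ← add_assoc, Nat.factorial_succ]
      push_cast
      push_cast at ih
      linear_combination ((N : ℤ) + j + 1) * ih
  have key : (N ! : ℝ) * (m * ξ - k * Real.exp 1) - D N = 0 := by
    have h1 : Tendsto (fun j : ℕ => (N ! : ℝ) * (d (N + j) - k * t (N + j))) atTop (𝓝 0) := by
      have a1 : Tendsto (fun j : ℕ => N + j) atTop atTop :=
        (tendsto_add_atTop_nat N).congr fun j => Nat.add_comm j N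
      have a2 := (hd0.comp a1).sub ((t_tend.comp a1).const_mul (k : ℝ))
      have a3 := a2.const_mul (N ! : ℝ)
      simpa using a3
    have h2 : ∀ j : ℕ, |(N ! : ℝ) * (m * ξ - k * Real.exp 1) - D N| ≤
        |(N ! : ℝ) * (d (N + j) - k * t (N + j))| := by
      intro j
      have b1 := hDs j
      have b1r : (N ! : ℝ) * (P (N + j) - k * A (N + j)) = (N + j)! * D N := by
        have : (((N ! : ℤ) * D (N + j) : ℤ) : ℝ) = (((N + j)! * D N : ℤ) : ℝ) := by rw [b1]
        rw [hD] at this ⊢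
        push_cast at this
        push_cast
        exact this
      have b2 := hdP (N + j)
      have b3 : ((N + j)! : ℝ) * ((N ! : ℝ) * (m * ξ - k * Real.exp 1) - D N) =
          (N ! : ℝ) * (d (N + j) - k * t (N + j)) := by
        unfold t
        linear_combination (N ! : ℝ) * b2 + b1r
      rw [← b3, abs_mul]
      have b4 : (1 : ℝ) ≤ |((N + j)! : ℝ)| := by
        rw [abs_of_nonneg (Nat.cast_nonneg _)]
        exact_mod_cast Nat.succ_le_of_lt (Nat.factorial_pos _)
      exact le_mul_of_one_le_left (abs_nonneg _) b4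
    have h3 := h1.abs
    rw [abs_zero] at h3
    have h4 := ge_of_tendsto' h3 h2
    exact abs_eq_zero.mp (le_antisymm h4 (abs_nonneg _))
  refine ⟨-D N, -(N ! * k), N ! * m, ?_, ?_⟩
  · have h1 : (N ! : ℤ) ≠ 0 := by exact_mod_cast (Nat.factorial_pos N).ne'
    have h2 : (m : ℤ) ≠ 0 := by
      have : m ≠ 0 := by omega
      exact_mod_cast this
    exact mul_ne_zero h1 h2
  · push_cast
    linear_combination key

theorem fact_criterion (ξ : ℝ) :
    (∃ a b c : ℤ, c ≠ 0 ∧ (a : ℝ) + b * Real.exp 1 + c * ξ = 0) ↔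
    ∃ m : ℕ, 1 ≤ m ∧ ∃ L : ℝ,
      Tendsto (fun n : ℕ => (n : ℝ) * rem (m * n ! * ξ)) atTop (𝓝 L) := by
  constructor
  · rintro ⟨a, b, c, hc, h⟩
    exact ⟨c.natAbs, Int.natAbs_pos.mpr hc, tendsto_of_rel h⟩
  · rintro ⟨m, hm, L, hL⟩
    exact rel_of_tendsto hm hL

theorem indep_iff_fact : Indep ↔ ∀ m : ℕ, 1 ≤ m → ∀ L : ℝ,
    ¬ Tendsto (fun n : ℕ => (n : ℝ) * rem (m * n ! * Real.pi)) atTop (𝓝 L) := by
  rw [← not_iff_not, not_indep, fact_criterion]
  push Not
  exact Iff.rfl

end Pool.Agent.H118R4.EC
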