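import Pool.Agent.H118R4.EC.Fact

set_option autoImplicit false

/-!
# The numbers `π + e` and `π - e`
-/

namespace Pool.Agent.H118R4.EC

open Filter Topology
open scoped Nat
open Pool.Agent.H43R2.Cplx (Exp2)

theorem core {ξ : ℝ} {m N : ℕ} {k : ℤ}
    (hd0 : Tendsto (fun n : ℕ => rem (m * n ! * ξ)) atTop (𝓝 0))
    (hgk : ∀ n : ℕ, N ≤ n → round ((m : ℝ) * (n + 1)! * ξ) =
      (n + 1) * round ((m : ℝ) * n ! * ξ) + k) :
    ∃ D : ℤ, (N ! : ℝ) * (m * ξ - k * Real.exp 1) - D = 0 := by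
  set d : ℕ → ℝ := fun n => rem (m * n ! * ξ) with hd
  set P : ℕ → ℤ := fun n => round ((m : ℝ) * n ! * ξ) with hP
  have hdP : ∀ n, (m : ℝ) * n ! * ξ = P n + d n := by
    intro n
    rw [hd, hP]
    unfold rem
    ring
  set D : ℕ → ℤ := fun n => P n - k * A n with hD
  have hDs : ∀ j, (N ! : ℤ) * D (N + j) = (N + j)! * D N := by
    intro j
    induction j with
    | zero => simp
    | succ j ih =>
      have h2 : P (N + j + 1) = ((N + j : ℕ) + 1) * P (N + j) + k := hgk (N + j) (by omega)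
      have h3 : D (N + (j + 1)) = ((N + j : ℕ) + 1) * D (N + j) := by
        rw [hD]
        simp only
        rw [← add_assoc, h2, A]
        push_cast
        ring
      rw [h3, ← add_assoc, Nat.factorial_succ]
      push_cast
      push_cast at ih
      linear_combination ((N : ℤ) + j + 1) * ih
  refine ⟨D N, ?_⟩
  have h1 : Tendsto (fun j : ℕ => (N ! : ℝ) * (d (N + j) - k * t (N + j))) atTop (𝓝 0) := by
    have a1 : Tendsto (fun j : ℕ => N + j) atTop atTop :=
      (tendsto_add_atTop_nat N).congr fun j => Nat.add_comm j N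
    have a2 := (hd0.comp a1).sub ((t_tend.comp a1).const_mul (k : ℝ))
    have a3 := a2.const_mul (N ! : ℝ)
    simpa using a3
  have h2 : ∀ j : ℕ, |(N ! : ℝ) * (m * ξ - k * Real.exp 1) - D N| ≤
      |(N ! : ℝ) * (d (N + j) - k * t (N + j))| := by
    intro j
    have b1 := hDs j
    have b1r : (N ! : ℝ) * (P (N + j) - k * A (N + j)) = (N + j)! * D N := by
      have : (((N ! : ℤ) * D (N + j) : ℤ) : ℝ) = (((N + j)! * D N : ℤ) : ℝ) := by rw [b1]
      rw [hD] at this ⊢
      push_cast at this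
      push_cast
      exact this
    have b2 := hdP (N + j)
    have b3 : ((N + j)! : ℝ) * ((N ! : ℝ) * (m * ξ - k * Real.exp 1) - D N) =
        (N ! : ℝ) * (d (N + j) - k * t (N + j)) := by
      unfold t
      linear_combination (N ! : ℝ) * b2 + b1r
    rw [← b3, abs_mul]
    have b4 : (1 : ℝ) ≤ |((N + j)! : ℝ)| := by
      rw [abs_of_nonneg (Nat.cast_nonneg _)]
      exact_mod_cast Nat.succ_le_of_lt (Nat.factorial_pos _)
    exact le_mul_of_one_le_left (abs_nonneg _) b4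
  have h3 := h1.abs
  rw [abs_zero] at h3
  have h4 := ge_of_tendsto' h3 h2
  exact abs_eq_zero.mp (le_antisymm h4 (abs_nonneg _))

/-- the gap: a distance below one forces the exact relation -/
theorem rat_of_gap {ξ : ℝ} {m : ℕ} {k : ℤ} {κ : ℝ} (hκ : κ < 1)
    (h : ∀ᶠ n : ℕ in atTop, |(n : ℝ) * rem (m * n ! * ξ) - k| ≤ κ) :
    ∃ N : ℕ, ∃ D : ℤ, (N ! : ℝ) * (m * ξ - k * Real.exp 1) - D = 0 := by
  set d : ℕ → ℝ := fun n => rem (m * n ! * ξ) with hd
  set P : ℕ → ℤ := fun n => round ((m : ℝ) * n ! * ξ) with hP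
  have hdP : ∀ n, (m : ℝ) * n ! * ξ = P n + d n := by
    intro n
    rw [hd, hP]
    unfold rem
    ring
  have hd0 : Tendsto d atTop (𝓝 0) := by
    have h1 : Tendsto (fun n : ℕ => (κ + |(k : ℝ)|) * (1 / (n : ℝ))) atTop (𝓝 0) := by
      have := (tendsto_one_div_atTop_nhds_zero_nat (𝕜 := ℝ)).const_mul (κ + |(k : ℝ)|)
      rwa [mul_zero] at this
    refine squeeze_zero_norm' ?_ h1
    filter_upwards [eventually_ge_atTop 1, h] with n hn hh
    have hnp : (0 : ℝ) < n := by exact_mod_cast hn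
    rw [Real.norm_eq_abs, mul_one_div, le_div_iff₀ hnp]
    have e1 : |d n| * n = |(n : ℝ) * d n| := by rw [abs_mul, abs_of_pos hnp, mul_comm]
    rw [e1]
    have e2 : (n : ℝ) * d n = ((n : ℝ) * d n - k) + k := by ring
    rw [e2]
    refine (abs_add_le _ _).trans ?_
    have : |(n : ℝ) * d n - k| ≤ κ := hh
    linarith
  have hsmall : ∀ᶠ n : ℕ in atTop, |d n| < (1 - κ) / 2 := by
    have h3 := hd0.abs
    rw [abs_zero] at h3
    exact h3.eventually (gt_mem_nhds (by linarith))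
  obtain ⟨N, hN⟩ := eventually_atTop.mp (h.and hsmall)
  refine ⟨N, core hd0 ?_⟩
  intro n hn
  obtain ⟨a1, a2⟩ := hN n hn
  obtain ⟨_, a3⟩ := hN (n + 1) (by omega)
  have h1 := hdP n
  have h2 := hdP (n + 1)
  rw [Nat.factorial_succ] at h2
  push_cast at h2
  have h3 : ((P (n + 1) - ((n + 1) * P n + k) : ℤ) : ℝ) = (n * d n - k) + d n - d (n + 1) := by
    push_cast
    linear_combination (n + 1 : ℝ) * h1 - h2
  have h4 : |(((P (n + 1) - ((n + 1) * P n + k) : ℤ)) : ℝ)| < 1 := by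
    rw [h3]
    have b1 := abs_sub ((n * d n - k) + d n) (d (n + 1))
    have b2 := abs_add_le ((n : ℝ) * d n - k) (d n)
    have b3 : |(n : ℝ) * d n - k| ≤ κ := a1
    linarith
  have h5 : |P (n + 1) - ((n + 1) * P n + k)| < 1 := by exact_mod_cast h4
  have := Int.abs_lt_one_iff.mp h5
  have h6 : P (n + 1) = (n + 1) * P n + k := by omega
  exact h6

theorem tendsto_of_rat {ξ : ℝ} {m : ℕ} {a k : ℤ} (h : (m : ℝ) * ξ = a + k * Real.exp 1) :
    Tendsto (fun n : ℕ => (n : ℝ) * rem (m * n ! * ξ)) atTop (𝓝 k) := by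
  have e1 : ∀ n : ℕ, (m : ℝ) * n ! * ξ - ((a * n ! + k * A n : ℤ) : ℝ) = k * t n := by
    intro n
    unfold t
    push_cast
    linear_combination (n ! : ℝ) * h
  have e2 : Tendsto (fun n : ℕ => (k : ℝ) * t n) atTop (𝓝 0) := by
    have := t_tend.const_mul (k : ℝ)
    rwa [mul_zero] at this
  have e3 : Tendsto (fun n : ℕ => (k : ℝ) * (n * t n)) atTop (𝓝 (k : ℝ)) := by
    have := nt_tend.const_mul (k : ℝ)
    rwa [mul_one] at this
  refine e3.congr' ?_
  have e4 := e2.abs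
  rw [abs_zero] at e4
  filter_upwards [e4.eventually (gt_mem_nhds (by norm_num : (0 : ℝ) < 1 / 2))] with n hn
  rw [← e1 n] at hn
  rw [rem_eq hn, e1 n]
  ring

/-- `ξ - s e` is rational if and only if `n` times the signed distance of `m n! ξ` to the nearest
integer is, for some `m`, within `κ < 1` of `m s` for all large `n` -/
theorem rat_iff (ξ : ℝ) (s : ℤ) : (∃ r : ℚ, (r : ℝ) = ξ - s * Real.exp 1) ↔
    ∃ m : ℕ, 1 ≤ m ∧ ∃ κ : ℝ, κ < 1 ∧
      ∀ᶠ n : ℕ in atTop, |(n : ℝ) * rem (m * n ! * ξ) - m * s| ≤ κ := by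
  constructor
  · rintro ⟨r, hr⟩
    have hden : 1 ≤ r.den := r.den_pos
    have hdr : (r.den : ℝ) ≠ 0 := by
      have : r.den ≠ 0 := by omega
      exact_mod_cast this
    have h1 : ((r.den : ℕ) : ℝ) * ξ = (r.num : ℤ) + ((r.den * s : ℤ) : ℝ) * Real.exp 1 := by
      have h2 : (r : ℝ) * r.den = r.num := by
        have := Rat.mul_den_eq_num r
        exact_mod_cast this
      push_cast
      linear_combination h2 - (r.den : ℝ) * hr
    refine ⟨r.den, hden, 1 / 2, by norm_num, ?_⟩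
    have h3 := tendsto_of_rat h1
    obtain ⟨N, hN⟩ := (Metric.tendsto_atTop.mp h3) (1 / 2) (by norm_num)
    filter_upwards [eventually_ge_atTop N] with n hn
    have := hN n hn
    rw [Real.dist_eq] at this
    push_cast at this
    exact this.le
  · rintro ⟨m, hm, κ, hκ, h⟩
    obtain ⟨N, D, hD⟩ := rat_of_gap (ξ := ξ) (m := m) (k := m * s) hκ (by
      filter_upwards [h] with n hn
      push_cast
      exact hn)
    have h1 : (N ! : ℝ) ≠ 0 := by positivity
    have h2 : (m : ℝ) ≠ 0 := by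
      have : m ≠ 0 := by omega
      exact_mod_cast this
    refine ⟨(D : ℚ) / (N ! * m), ?_⟩
    push_cast
    push_cast at hD
    rw [div_eq_iff (mul_ne_zero h1 h2)]
    linear_combination -hD

theorem irr_iff (s : ℤ) : Irrational (Real.pi - s * Real.exp 1) ↔
    ∀ m : ℕ, 1 ≤ m → ∀ κ : ℝ, κ < 1 →
      ∃ᶠ n : ℕ in atTop, κ < |(n : ℝ) * rem (m * n ! * Real.pi) - m * s| := by
  have h0 : Irrational (Real.pi - s * Real.exp 1) ↔
      ¬ ∃ r : ℚ, (r : ℝ) = Real.pi - s * Real.exp 1 := Iff.rfl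
  rw [h0, rat_iff]
  push Not
  constructor
  · intro h m hm κ hκ
    have := h m hm κ hκ
    simpa only [not_eventually, not_le] using this
  · intro h m hm κ hκ
    have := h m hm κ hκ
    simpa only [not_eventually, not_le] using this

theorem rel_of_rat {x : ℝ} {y z : ℚ} (hz : z ≠ 0) (hx : x = y + z * Real.exp 1) :
    ∃ a b c : ℤ, b ≠ 0 ∧ c ≠ 0 ∧ (a : ℝ) + b * Real.exp 1 + c * x = 0 := by
  have hy : (y : ℝ) * y.den = y.num := by
    have := Rat.mul_den_eq_num y
    exact_mod_cast this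
  have hzz : (z : ℝ) * z.den = z.num := by
    have := Rat.mul_den_eq_num z
    exact_mod_cast this
  have h1 : (y.den : ℤ) ≠ 0 := by exact_mod_cast y.den_nz
  have h2 : (z.den : ℤ) ≠ 0 := by exact_mod_cast z.den_nz
  refine ⟨y.num * z.den, z.num * y.den, -(y.den * z.den), ?_, ?_, ?_⟩
  · exact mul_ne_zero (Rat.num_ne_zero.mpr hz) h1
  · exact neg_ne_zero.mpr (mul_ne_zero h1 h2)
  · push_cast
    rw [hx]
    linear_combination (-(z.den : ℝ)) * hy - (y.den : ℝ) * Real.exp 1 * hzz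

end Pool.Agent.H118R4.EC
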