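import Pool.Agent.H118R4.EC.Cons

set_option autoImplicit false

/-!
# The case `ξ = π`
-/

namespace Pool.Agent.H118R4.EC

open Filter Topology
open Pool.Agent.H43R2.Cplx (Exp2)
open Pool.Agent.H43R2.Cplx.EMeas (q)

/-- no linear relation between `1, e, π` -/
def Indep : Prop := ∀ a b c : ℤ, (a : ℝ) + b * Real.exp 1 + c * Real.pi = 0 →
  a = 0 ∧ b = 0 ∧ c = 0

theorem e_irr {a b : ℤ} (hb : b ≠ 0) (h : (a : ℝ) + b * Real.exp 1 = 0) : False := by
  obtain ⟨c0, hc0, hq⟩ := Pool.Agent.H43R2.Cplx.EMeas.measure 1 one_pos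
  have hb1 : 1 ≤ b.natAbs := Int.natAbs_pos.mpr hb
  have hcast : (b.natAbs : ℝ) = |(b : ℝ)| := by rw [Nat.cast_natAbs, Int.cast_abs]
  rcases le_total 0 (b : ℝ) with hb0 | hb0
  · have h1 := hq b.natAbs hb1 (-a)
    have h2 : (b.natAbs : ℝ) * Real.exp 1 - ((-a : ℤ) : ℝ) = 0 := by
      rw [hcast, abs_of_nonneg hb0]
      push_cast
      linarith
    rw [h2, abs_zero, mul_zero] at h1
    linarith
  · have h1 := hq b.natAbs hb1 a
    have h2 : (b.natAbs : ℝ) * Real.exp 1 - ((a : ℤ) : ℝ) = 0 := by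
      rw [hcast, abs_of_nonpos hb0]
      linarith
    rw [h2, abs_zero, mul_zero] at h1
    linarith

theorem ne_zero_of_rel {a b c : ℤ} (hc : c ≠ 0)
    (h : (a : ℝ) + b * Real.exp 1 + c * Real.pi = 0) : b ≠ 0 := by
  rintro rfl
  apply irrational_pi
  refine ⟨-(a : ℚ) / c, ?_⟩
  have hcr : (c : ℝ) ≠ 0 := by exact_mod_cast hc
  push_cast
  rw [div_eq_iff hcr]
  simp only [Int.cast_zero, zero_mul, add_zero] at h
  linarith

theorem not_indep : ¬ Indep ↔ ∃ a b c : ℤ, c ≠ 0 ∧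
    (a : ℝ) + b * Real.exp 1 + c * Real.pi = 0 := by
  constructor
  · intro h
    unfold Indep at h
    push Not at h
    obtain ⟨a, b, c, h1, h2⟩ := h
    refine ⟨a, b, c, ?_, h1⟩
    rintro rfl
    simp only [Int.cast_zero, zero_mul, add_zero] at h1
    by_cases hb : b = 0
    · subst hb
      simp only [Int.cast_zero, zero_mul, add_zero, Int.cast_eq_zero] at h1
      exact h2 h1 rfl rfl
    · exact e_irr hb h1
  · rintro ⟨a, b, c, hc, h⟩ hI
    exact hc (hI a b c h).2.2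

theorem indep_iff : Indep ↔ ∀ m : ℕ, 1 ≤ m → ∀ κ : ℝ, κ < 1 / 4 →
    ∃ᶠ n : ℕ in atTop, κ < n * dist (m * q n * Real.pi) := by
  rw [← not_iff_not, not_indep, criterion]
  push Not
  constructor
  · rintro ⟨m, hm, κ, hκ, h⟩
    refine ⟨m, hm, κ, hκ, ?_⟩
    simpa only [not_frequently, not_lt] using h
  · rintro ⟨m, hm, κ, hκ, h⟩
    refine ⟨m, hm, κ, hκ, ?_⟩
    simpa only [not_frequently, not_lt] using h

theorem rel_of_gap {ξ : ℝ} {m : ℕ} (hm : 1 ≤ m) {K : ℝ}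
    (h : ∀ n : ℕ, dist (m * q n * ξ) ≤ K / q (n + 1)) :
    ∃ a b c : ℤ, c ≠ 0 ∧ (a : ℝ) + b * Real.exp 1 + c * ξ = 0 := by
  refine (criterion ξ).mpr ⟨m, hm, 1 / 5, by norm_num, ?_⟩
  have ht : Tendsto (fun n : ℕ => K * ((n : ℝ) / q (n + 1))) atTop (𝓝 0) := by
    have := tend.const_mul K
    rwa [mul_zero] at this
  filter_upwards [ht.eventually (gt_mem_nhds (by norm_num : (0 : ℝ) < 1 / 5))] with n hn
  have h1 := mul_le_mul_of_nonneg_left (h n) (Nat.cast_nonneg (α := ℝ) n)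
  refine h1.trans (le_trans (le_of_eq ?_) hn.le)
  ring

end Pool.Agent.H118R4.EC
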